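import Pool.Agent.Helper35.PI.St1

/-!
# Project PI, module E4: the heat operator of `s`
-/

set_option autoImplicit false

namespace Helper63.PI

open Helper35.PI
open scoped BigOperators

variable {n N : ℕ}

private theorem ip (H b b' : EE N) (α α' : ℝ) (h : inner ℝ b H = (0 : ℝ))
    (h' : inner ℝ b' H = (0 : ℝ)) :
    inner ℝ (α • H + ‖H‖ • b) (α' • H + ‖H‖ • b') = ‖H‖ ^ 2 * (α * α' + inner ℝ b b') := by
  have h2 : inner ℝ H b' = (0 : ℝ) := by rw [real_inner_comm]; exact h'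
  simp only [inner_add_left, inner_add_right, real_inner_smul_left, real_inner_smul_right,
    real_inner_self_eq_norm_sq, h, h2]
  ring

private theorem ipH (H b : EE N) (α : ℝ) (h : inner ℝ b H = (0 : ℝ)) :
    inner ℝ (α • H + ‖H‖ • b) H = ‖H‖ ^ 2 * α := by
  simp only [inner_add_left, real_inner_smul_left, real_inner_self_eq_norm_sq, h]
  ring

private theorem dec (H v : EE N) (h : 0 < ‖H‖ ^ 2) :
    v = (inner ℝ v H / ‖H‖ ^ 2) • H +
      ‖H‖ • ((1 / ‖H‖) • (v - (inner ℝ v H / ‖H‖ ^ 2) • H)) ∧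
    inner ℝ ((1 / ‖H‖) • (v - (inner ℝ v H / ‖H‖ ^ 2) • H)) H = (0 : ℝ) := by
  have hH : ‖H‖ ≠ 0 := by
    intro h0
    rw [h0] at h
    norm_num at h
  constructor
  · rw [smul_smul, mul_one_div_cancel hH, one_smul]
    abel
  · rw [real_inner_smul_left, inner_sub_left, real_inner_smul_left, real_inner_self_eq_norm_sq,
      div_mul_cancel₀ _ h.ne', sub_self, mul_zero]

private theorem s12 (f : Fin n → Fin n → Fin n → Fin n → ℝ) :
    ∑ a, ∑ b, ∑ c, ∑ d, f a b c d = ∑ b, ∑ a, ∑ c, ∑ d, f a b c d := Finset.sum_comm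

private theorem s23 (f : Fin n → Fin n → Fin n → Fin n → ℝ) :
    ∑ a, ∑ b, ∑ c, ∑ d, f a b c d = ∑ a, ∑ c, ∑ b, ∑ d, f a b c d :=
  Finset.sum_congr rfl fun _ _ => Finset.sum_comm

private theorem s34 (f : Fin n → Fin n → Fin n → Fin n → ℝ) :
    ∑ a, ∑ b, ∑ c, ∑ d, f a b c d = ∑ a, ∑ b, ∑ d, ∑ c, f a b c d :=
  Finset.sum_congr rfl fun _ _ => Finset.sum_congr rfl fun _ _ => Finset.sum_comm

private theorem s3 (f : Fin n → Fin n → Fin n → ℝ) :
    ∑ k, ∑ i, ∑ j, f k i j = ∑ i, ∑ j, ∑ k, f k i j := by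
  rw [Finset.sum_comm]
  exact Finset.sum_congr rfl fun _ _ => Finset.sum_comm

private theorem sum_dl (f : Fin n → ℝ) (i : Fin n) : ∑ k, dl i k * f k = 1 / n * f i := by
  simp [dl]

private theorem sum_dl_smul (f : Fin n → EE N) (i : Fin n) :
    ∑ k, dl i k • f k = (1 / (n : ℝ)) • f i := by
  simp [dl, ite_smul]

private theorem sum_dl_smul' (f : Fin n → EE N) (i : Fin n) :
    ∑ k, dl k i • f k = (1 / (n : ℝ)) • f i := by
  simp [dl, ite_smul]

/-- the commutator term -/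
private theorem comm (M : Fin n → Fin n → ℝ) (B : Fin n → Fin n → EE N) (hM : SymS M)
    (hB : SymV B) :
    ∑ i, ∑ j, ‖∑ k, (M i k • B k j - M k j • B i k)‖ ^ 2 =
      2 * (∑ i, ∑ j, ∑ k, ∑ a, inner ℝ (B i a) (B a k) * (M i j * M k j)) -
      2 * (∑ i, ∑ j, ∑ a, ∑ b, M i j * M a b * inner ℝ (B a i) (B b j)) := by
  have e1 : ∀ i j, ‖∑ k, (M i k • B k j - M k j • B i k)‖ ^ 2 =
      (∑ k, ∑ l, M i k * M i l * inner ℝ (B k j) (B l j)) +
      (∑ k, ∑ l, M k j * M l j * inner ℝ (B i k) (B i l)) -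
      2 * (∑ k, ∑ l, M i k * M l j * inner ℝ (B k j) (B i l)) := by
    intro i j
    rw [Finset.sum_sub_distrib, ← real_inner_self_eq_norm_sq, inner_sub_left, inner_sub_right,
      inner_sub_right, real_inner_comm (∑ k, M i k • B k j) (∑ k, M k j • B i k)]
    simp only [sum_inner, inner_sum, real_inner_smul_left, real_inner_smul_right]
    have a1 : ∑ x, ∑ z, M i x * (M i z * inner ℝ (B z j) (B x j)) =
        ∑ k, ∑ l, M i k * M i l * inner ℝ (B k j) (B l j) :=
      Finset.sum_congr rfl fun _ _ => Finset.sum_congr rfl fun _ _ => by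
        rw [real_inner_comm]; ring
    have a2 : ∑ x, ∑ z, M x j * (M z j * inner ℝ (B i z) (B i x)) =
        ∑ k, ∑ l, M k j * M l j * inner ℝ (B i k) (B i l) :=
      Finset.sum_congr rfl fun _ _ => Finset.sum_congr rfl fun _ _ => by
        rw [real_inner_comm]; ring
    have a3 : ∑ x, ∑ z, M x j * (M i z * inner ℝ (B z j) (B i x)) =
        ∑ k, ∑ l, M i k * M l j * inner ℝ (B k j) (B i l) := by
      rw [Finset.sum_comm]
      exact Finset.sum_congr rfl fun _ _ => Finset.sum_congr rfl fun _ _ => by ring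
    rw [a1, a2, a3]
    ring
  have e2 : ∑ i, ∑ j, ∑ k, ∑ l, M i k * M i l * inner ℝ (B k j) (B l j) =
      ∑ i, ∑ j, ∑ k, ∑ a, inner ℝ (B i a) (B a k) * (M i j * M k j) := by
    rw [s23, s12, s34]
    refine Finset.sum_congr rfl fun i _ => Finset.sum_congr rfl fun j _ =>
      Finset.sum_congr rfl fun k _ => Finset.sum_congr rfl fun a _ => ?_
    rw [hM j i, hM j k, hB k a]
    ring
  have e3 : ∑ i, ∑ j, ∑ k, ∑ l, M k j * M l j * inner ℝ (B i k) (B i l) =
      ∑ i, ∑ j, ∑ k, ∑ a, inner ℝ (B i a) (B a k) * (M i j * M k j) := by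
    rw [s23, s12, s23, s34]
    refine Finset.sum_congr rfl fun i _ => Finset.sum_congr rfl fun j _ =>
      Finset.sum_congr rfl fun k _ => Finset.sum_congr rfl fun a _ => ?_
    rw [hB a i]
    ring
  have e4 : ∑ i, ∑ j, ∑ k, ∑ l, M i k * M l j * inner ℝ (B k j) (B i l) =
      ∑ i, ∑ j, ∑ a, ∑ b, M i j * M a b * inner ℝ (B a i) (B b j) := by
    rw [s23, s12]
    refine Finset.sum_congr rfl fun i _ => Finset.sum_congr rfl fun j _ =>
      Finset.sum_congr rfl fun a _ => Finset.sum_congr rfl fun b _ => ?_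
    rw [hM j i, hM b a, hB i a, hB j b]
  rw [Finset.sum_congr rfl fun i _ => Finset.sum_congr rfl fun j _ => e1 i j]
  simp only [Finset.sum_sub_distrib, Finset.sum_add_distrib, ← Finset.mul_sum]
  rw [e2, e3, e4]
  ring

theorem hE4 : StE4 := by
  intro n N hn A T hA hT hY0
  have hn0 : (n : ℝ) ≠ 0 := by
    have : (1 : ℝ) ≤ n := by exact_mod_cast hn
    linarith
  have hYH : YY A = ‖Hv A‖ ^ 2 := rfl
  set H : EE N := Hv A with hH
  set Y : ℝ := YY A with hYdef
  have hYne : Y ≠ 0 := hY0.ne'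
  have hYH0 : 0 < ‖H‖ ^ 2 := hYH ▸ hY0
  -- the decomposition
  set M : Fin n → Fin n → ℝ := fun i j => zz A i j / Y with hM
  set B : Fin n → Fin n → EE N := BA A with hB
  set τ : Fin n → Fin n → Fin n → ℝ := tA A T with hτ
  set θ : Fin n → Fin n → Fin n → EE N := thA A T with hθ
  set m : Fin n → Fin n → ℝ := mA A with hm
  have dA : ∀ i j, A i j = M i j • H + ‖H‖ • B i j ∧ inner ℝ (B i j) H = (0 : ℝ) := fun i j =>
    dec H (A i j) hYH0
  have dT : ∀ i j k, T i j k = τ i j k • H + ‖H‖ • θ i j k ∧ inner ℝ (θ i j k) H = (0 : ℝ) :=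
    fun i j k => dec H (T i j k) hYH0
  have hMs : SymS M := fun i j => by
    show zz A i j / Y = zz A j i / Y
    unfold zz
    rw [hA i j]
  have hBs : SymV B := fun i j => by
    show BA A i j = BA A j i
    unfold BA zz
    rw [hA i j]
  have hτs : ∀ i j k, τ k i j = τ i j k := fun i j k => by
    show tA A T k i j = tA A T i j k
    unfold tA
    rw [hT.1 k i j, hT.2 i k j]
  have hθs : ∀ i j k, θ k i j = θ i j k := fun i j k => by
    show thA A T k i j = thA A T i j k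
    unfold thA
    rw [hT.1 k i j, hT.2 i k j]
  have hmM : ∀ i j, M i j = m i j + dl i j := fun i j => by
    show zz A i j / YY A = (zz A i j / YY A - dl i j) + dl i j
    ring
  have hz : ∀ i j, zz A i j = Y * M i j := fun i j => by
    show zz A i j = Y * (zz A i j / Y)
    field_simp
  -- traces
  have trM : ∑ i, M i i = 1 := by
    have h1 : ∑ i, zz A i i = Y := by
      have : ∑ i, zz A i i = inner ℝ (∑ i, A i i) H := by
        rw [sum_inner]; rfl
      rw [this, hYH, ← real_inner_self_eq_norm_sq]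
      rfl
    rw [← Finset.sum_div, h1, div_self hYne]
  have trB : ∑ i, B i i = 0 := by
    have h1 : ∑ i, A i i = (∑ i, M i i) • H + ‖H‖ • ∑ i, B i i := by
      rw [Finset.sum_smul, Finset.smul_sum, ← Finset.sum_add_distrib]
      exact Finset.sum_congr rfl fun i _ => (dA i i).1
    rw [trM, one_smul] at h1
    have h2 : ∑ i, A i i = H := rfl
    rw [h2] at h1
    have h3 : ‖H‖ • ∑ i, B i i = 0 := by
      have := congrArg (fun v => v - H) h1
      simp only [sub_self, add_sub_cancel_left] at this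
      exact this.symm
    have hHn : ‖H‖ ≠ 0 := by
      intro h0
      rw [h0] at hYH0
      norm_num at hYH0
    exact (smul_eq_zero.1 h3).resolve_left hHn
  have trm : ∑ i, m i i = 0 := by
    have h1 : ∑ i, M i i = ∑ i, m i i + ∑ i : Fin n, dl i i := by
      rw [← Finset.sum_add_distrib]
      exact Finset.sum_congr rfl fun i _ => hmM i i
    have h2 : ∑ i : Fin n, dl i i = 1 := by
      simp [dl, hn0]
    rw [trM, h2] at h1
    linarith
  set y : Fin n → ℝ := yv τ with hy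
  set w : Fin n → EE N := wv θ with hw
  have dE : ∀ k, et T k = y k • H + ‖H‖ • w k := fun k => by
    show ∑ i, T i i k = (∑ i, τ k i i) • H + ‖H‖ • ∑ i, θ k i i
    rw [Finset.sum_smul, Finset.smul_sum, ← Finset.sum_add_distrib]
    refine Finset.sum_congr rfl fun i _ => ?_
    rw [(dT i i k).1, hτs i i k, hθs i i k]
  have w0 : ∀ k, inner ℝ (w k) H = (0 : ℝ) := fun k => by
    show inner ℝ (∑ i, θ k i i) H = (0 : ℝ)
    rw [sum_inner]
    exact Finset.sum_eq_zero fun i _ => (dT k i i).2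
  have iAA : ∀ i j k l, inner ℝ (A i j) (A k l) = Y * (M i j * M k l + inner ℝ (B i j) (B k l)) :=
    fun i j k l => by
      rw [(dA i j).1, (dA k l).1, ip H _ _ _ _ (dA i j).2 (dA k l).2, ← hYH]
  have iAE : ∀ i j k, inner ℝ (A i j) (et T k) = Y * (M i j * y k + inner ℝ (B i j) (w k)) :=
    fun i j k => by
      rw [(dA i j).1, dE k, ip H _ _ _ _ (dA i j).2 (w0 k), ← hYH]
  have iTE : ∀ i j k, inner ℝ (T i j k) (et T k) = Y * (τ i j k * y k + inner ℝ (θ i j k) (w k)) :=
    fun i j k => by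
      rw [(dT i j k).1, dE k, ip H _ _ _ _ (dT i j k).2 (w0 k), ← hYH]
  have iTH : ∀ i j k, inner ℝ (T i j k) H = Y * τ i j k := fun i j k => by
    rw [(dT i j k).1, ipH H _ _ (dT i j k).2, ← hYH]
  have iEH : ∀ k, inner ℝ H (et T k) = Y * y k := fun k => by
    rw [real_inner_comm, dE k, ipH H _ _ (w0 k), ← hYH]
  have iEE : ∀ k, ‖et T k‖ ^ 2 = Y * (y k ^ 2 + ‖w k‖ ^ 2) := fun k => by
    rw [← real_inner_self_eq_norm_sq, dE k, ip H _ _ _ _ (w0 k) (w0 k), ← hYH,
      real_inner_self_eq_norm_sq]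
    ring
  have hgz : ∀ i j k, gz A T i j k = Y * (τ i j k + M i j * y k + inner ℝ (B i j) (w k)) :=
    fun i j k => by
      show inner ℝ (T i j k) H + inner ℝ (A i j) (et T k) = _
      rw [iTH, iAE]
      ring
  have hgY : ∀ k, gY A T k = 2 * (Y * y k) := fun k => by
    show 2 * inner ℝ H (et T k) = _
    rw [iEH]
  -- the vector σ
  have hσ : sg m B = ∑ i, ∑ j, M i j • B i j := by
    have h1 : ∑ i, ∑ j, M i j • B i j = sg m B + ∑ i, ∑ j, dl i j • B i j := by
      unfold sg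
      simp only [← Finset.sum_add_distrib, ← add_smul]
      exact Finset.sum_congr rfl fun i _ => Finset.sum_congr rfl fun j _ => by rw [hmM]
    have h2 : ∑ i, ∑ j, dl i j • B i j = 0 := by
      have : ∀ i, ∑ j, dl i j • B i j = (1 / (n : ℝ)) • B i i := fun i => sum_dl_smul _ i
      simp only [this]
      rw [← Finset.smul_sum, trB, smul_zero]
    rw [h1, h2, add_zero]
  have iσ : ∀ v : EE N, inner ℝ (sg m B) v = ∑ i, ∑ j, M i j * inner ℝ (B i j) v := fun v => by
    rw [hσ, sum_inner]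
    refine Finset.sum_congr rfl fun i _ => ?_
    rw [sum_inner]
    exact Finset.sum_congr rfl fun j _ => real_inner_smul_left _ _ _
  have σ0 : inner ℝ (sg m B) H = (0 : ℝ) := by
    rw [iσ]
    exact Finset.sum_eq_zero fun i _ => Finset.sum_eq_zero fun j _ => by
      rw [(dA i j).2, mul_zero]
  -- the atoms
  obtain ⟨rho, hrho⟩ : ∃ r : ℝ, r = ∑ i, ∑ j, M i j ^ 2 := ⟨_, rfl⟩
  obtain ⟨yy, hyy⟩ : ∃ r : ℝ, r = ∑ k, y k ^ 2 := ⟨_, rfl⟩
  obtain ⟨ww, hww⟩ : ∃ r : ℝ, r = ∑ k, ‖w k‖ ^ 2 := ⟨_, rfl⟩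
  obtain ⟨S1, hS1⟩ : ∃ r : ℝ, r = ∑ i, ∑ j, ∑ k, M i j * τ i j k * y k := ⟨_, rfl⟩
  obtain ⟨S2, hS2⟩ : ∃ r : ℝ, r = ∑ i, ∑ j, ∑ k, M i j * inner ℝ (θ i j k) (w k) := ⟨_, rfl⟩
  obtain ⟨S3, hS3⟩ : ∃ r : ℝ, r = ∑ i, ∑ j, ∑ k,
    (τ i j k + M i j * y k + inner ℝ (B i j) (w k)) ^ 2 := ⟨_, rfl⟩
  obtain ⟨σw, hσw⟩ : ∃ r : ℝ, r = ∑ i, ∑ j, ∑ k, M i j * y k * inner ℝ (B i j) (w k) := ⟨_, rfl⟩
  obtain ⟨C1, hC1⟩ : ∃ r : ℝ, r = ∑ i, ∑ j, ∑ k, ∑ a,
    inner ℝ (B i a) (B a k) * (M i j * M k j) := ⟨_, rfl⟩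
  obtain ⟨C2, hC2⟩ : ∃ r : ℝ, r = ∑ i, ∑ j, ∑ a, ∑ b,
    M i j * M a b * inner ℝ (B a i) (B b j) := ⟨_, rfl⟩
  obtain ⟨D, hD⟩ : ∃ r : ℝ, r = ∑ i, ∑ j, ∑ k, ∑ a, M i a * M a k * (M i j * M k j) := ⟨_, rfl⟩
  have hD' : D = ∑ i, ∑ j, ∑ a, ∑ b, M i j * M a b * (M a i * M b j) := by
    rw [hD, s34]
    refine Finset.sum_congr rfl fun i _ => Finset.sum_congr rfl fun j _ =>
      Finset.sum_congr rfl fun a _ => Finset.sum_congr rfl fun b _ => ?_
    rw [hMs i a]
    ring
  have hZZ : ZZ A = Y ^ 2 * rho := by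
    rw [hrho]
    show ∑ i, ∑ j, zz A i j ^ 2 = _
    simp only [Finset.mul_sum]
    exact Finset.sum_congr rfl fun i _ => Finset.sum_congr rfl fun j _ => by rw [hz]; ring
  have hhY : hY A T = -2 * (Y * (yy + ww)) + 2 * (Y ^ 2 * rho) := by
    show -2 * (∑ k, ‖et T k‖ ^ 2) + 2 * ZZ A = _
    rw [hZZ]
    have : ∑ k, ‖et T k‖ ^ 2 = Y * (yy + ww) := by
      rw [hyy, hww, ← Finset.sum_add_distrib, Finset.mul_sum]
      exact Finset.sum_congr rfl fun k _ => iEE k
    rw [this]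
  have hgY2 : ∑ k, gY A T k ^ 2 = 4 * Y ^ 2 * yy := by
    rw [hyy, Finset.mul_sum]
    exact Finset.sum_congr rfl fun k _ => by rw [hgY]; ring
  have hgg : ∑ k, gZ A T k * gY A T k = 4 * Y ^ 3 * (S1 + rho * yy + σw) := by
    have e1 : ∀ k, gZ A T k * gY A T k = ∑ i, ∑ j, 4 * Y ^ 3 *
        (M i j * τ i j k * y k + M i j ^ 2 * y k ^ 2 + M i j * y k * inner ℝ (B i j) (w k)) := by
      intro k
      rw [hgY]
      show 2 * (∑ i, ∑ j, zz A i j * gz A T i j k) * (2 * (Y * y k)) = _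
      have : 2 * (∑ i, ∑ j, zz A i j * gz A T i j k) * (2 * (Y * y k)) =
        (4 * Y * y k) * ∑ i, ∑ j, zz A i j * gz A T i j k := by ring
      rw [this, Finset.mul_sum]
      refine Finset.sum_congr rfl fun i _ => ?_
      rw [Finset.mul_sum]
      refine Finset.sum_congr rfl fun j _ => ?_
      rw [hz, hgz]
      ring
    simp only [e1]
    rw [s3, hS1, hσw]
    have e2 : rho * yy = ∑ i, ∑ j, ∑ k, M i j ^ 2 * y k ^ 2 := by
      rw [hrho, hyy, Finset.sum_mul]
      refine Finset.sum_congr rfl fun i _ => ?_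
      rw [Finset.sum_mul]
      exact Finset.sum_congr rfl fun j _ => Finset.mul_sum _ _ _
    rw [e2]
    simp only [← Finset.sum_add_distrib, Finset.mul_sum]
  have hP : ‖∑ i, ∑ j, zz A i j • A i j‖ ^ 2 = Y ^ 3 * (rho ^ 2 + Pq m B) := by
    have e1 : ∑ i, ∑ j, zz A i j • A i j = (Y * rho) • H + ‖H‖ • (Y • sg m B) := by
      rw [hσ, hrho]
      simp only [Finset.mul_sum, Finset.sum_smul, Finset.smul_sum, ← Finset.sum_add_distrib]
      refine Finset.sum_congr rfl fun i _ => Finset.sum_congr rfl fun j _ => ?_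
      rw [hz]
      conv_lhs => rw [(dA i j).1]
      rw [smul_add, smul_smul, smul_smul, smul_smul, smul_smul]
      congr 2
      · ring
      · ring
    have e2 : inner ℝ (Y • sg m B) H = (0 : ℝ) := by
      rw [real_inner_smul_left, σ0, mul_zero]
    rw [← real_inner_self_eq_norm_sq, e1, ip H _ _ _ _ e2 e2, ← hYH, real_inner_smul_left,
      real_inner_smul_right, real_inner_self_eq_norm_sq]
    unfold Pq
    ring
  have hhZ : hZ A T = 4 * (Y ^ 3 * (D + C1)) - 4 * (Y ^ 2 * (S1 + S2))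
      + 4 * (Y ^ 3 * (rho ^ 2 + Pq m B)) - 4 * (Y ^ 3 * (D + C2)) - 2 * (Y ^ 2 * S3) := by
    unfold hZ
    rw [hP]
    have e1 : ∑ i, ∑ j, ∑ k, ∑ a, inner ℝ (A i a) (A a k) * (zz A i j * zz A k j) =
        Y ^ 3 * (D + C1) := by
      rw [hD, hC1]
      simp only [← Finset.sum_add_distrib, Finset.mul_sum]
      refine Finset.sum_congr rfl fun i _ => Finset.sum_congr rfl fun j _ =>
        Finset.sum_congr rfl fun k _ => Finset.sum_congr rfl fun a _ => ?_
      rw [iAA, hz, hz]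
      ring
    have e2 : ∑ i, ∑ j, ∑ k, zz A i j * inner ℝ (T i j k) (et T k) = Y ^ 2 * (S1 + S2) := by
      rw [hS1, hS2]
      simp only [← Finset.sum_add_distrib, Finset.mul_sum]
      refine Finset.sum_congr rfl fun i _ => Finset.sum_congr rfl fun j _ =>
        Finset.sum_congr rfl fun k _ => ?_
      rw [iTE, hz]
      ring
    have e3 : ∑ i, ∑ j, ∑ a, ∑ b, zz A i j * zz A a b * inner ℝ (A a i) (A b j) =
        Y ^ 3 * (D + C2) := by
      rw [hD', hC2]
      simp only [← Finset.sum_add_distrib, Finset.mul_sum]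
      refine Finset.sum_congr rfl fun i _ => Finset.sum_congr rfl fun j _ =>
        Finset.sum_congr rfl fun k _ => Finset.sum_congr rfl fun a _ => ?_
      rw [iAA, hz, hz]
      ring
    have e4 : ∑ i, ∑ j, ∑ k, gz A T i j k ^ 2 = Y ^ 2 * S3 := by
      rw [hS3]
      simp only [Finset.mul_sum]
      refine Finset.sum_congr rfl fun i _ => Finset.sum_congr rfl fun j _ =>
        Finset.sum_congr rfl fun k _ => ?_
      rw [hgz]
      ring
    rw [e1, e2, e3, e4]
  -- the right side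
  have hQ : Qc m B = 2 * C1 - 2 * C2 := by
    rw [hC1, hC2, ← comm M B hMs hBs]
    unfold Qc
    refine Finset.sum_congr rfl fun i _ => Finset.sum_congr rfl fun j _ => ?_
    congr 2
    have h1 : ∑ k, (M i k • B k j - M k j • B i k) =
        ∑ k, (m i k • B k j - m k j • B i k) +
          (∑ k, dl i k • B k j - ∑ k, dl k j • B i k) := by
      rw [← Finset.sum_sub_distrib, ← Finset.sum_add_distrib]
      refine Finset.sum_congr rfl fun k _ => ?_
      rw [hmM, hmM, add_smul, add_smul]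
      abel
    rw [h1, sum_dl_smul (fun k => B k j) i, sum_dl_smul' (fun k => B i k) j, sub_self, add_zero]
  have hrs : rho = Helper35.PI.sq m + 1 / n := by
    have e1 : rho = ∑ i, ∑ j, (m i j ^ 2 + dl i j * (2 * m i j + dl i j)) := by
      rw [hrho]
      exact Finset.sum_congr rfl fun i _ => Finset.sum_congr rfl fun j _ => by rw [hmM]; ring
    have e2 : ∀ i, ∑ j, dl i j * (2 * m i j + dl i j) = 1 / n * (2 * m i i + dl i i) := fun i =>
      sum_dl (fun j => 2 * m i j + dl i j) i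
    have e3 : ∀ i : Fin n, dl i i = (1 : ℝ) / n := fun i => by simp [dl]
    rw [e1]
    simp only [Finset.sum_add_distrib, e2, e3]
    rw [← Finset.mul_sum, Finset.sum_add_distrib, ← Finset.mul_sum, trm]
    simp only [Finset.sum_const, Finset.card_univ, Fintype.card_fin, nsmul_eq_mul]
    unfold Helper35.PI.sq
    field_simp
    ring
  have hV : Vq m τ + 2 * VBw m B τ θ + Bw B θ = S3 - 4 * (S1 + σw) := by
    have e1 : Vq m τ + 2 * VBw m B τ θ + Bw B θ =
        ∑ k, ∑ i, ∑ j, (τ k i j - M i j * y k + inner ℝ (B i j) (w k)) ^ 2 := by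
      unfold Vq VBw Bw Vt
      simp only [Finset.mul_sum, ← Finset.sum_add_distrib]
      refine Finset.sum_congr rfl fun k _ => Finset.sum_congr rfl fun i _ =>
        Finset.sum_congr rfl fun j _ => ?_
      rw [hmM]
      ring
    rw [e1, s3, hS3, hS1, hσw]
    simp only [← Finset.sum_add_distrib, Finset.mul_sum, ← Finset.sum_sub_distrib]
    refine Finset.sum_congr rfl fun i _ => Finset.sum_congr rfl fun j _ =>
      Finset.sum_congr rfl fun k _ => ?_
    rw [hτs]
    ring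
  have hU : Umw m B τ θ = S2 - ww / n - σw := by
    have e1 : Umw m B τ θ = ∑ k, ∑ i, ∑ j, (M i j * inner ℝ (θ k i j) (w k) -
        M i j * y k * inner ℝ (B i j) (w k) - dl i j * inner ℝ (θ k i j) (w k) +
        dl i j * (y k * inner ℝ (B i j) (w k)) - dl i j * (m i j * ‖w k‖ ^ 2)) := by
      unfold Umw Ut
      refine Finset.sum_congr rfl fun k _ => Finset.sum_congr rfl fun i _ =>
        Finset.sum_congr rfl fun j _ => ?_
      rw [inner_sub_left, inner_sub_left, real_inner_smul_left, real_inner_smul_left,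
        real_inner_self_eq_norm_sq, hmM]
      ring
    have e2 : ∑ k, ∑ i, ∑ j, dl i j * inner ℝ (θ k i j) (w k) = ww / n := by
      have : ∀ k, ∑ i, ∑ j, dl i j * inner ℝ (θ k i j) (w k) = ‖w k‖ ^ 2 / n := by
        intro k
        have a1 : ∀ i, ∑ j, dl i j * inner ℝ (θ k i j) (w k) = 1 / n * inner ℝ (θ k i i) (w k) :=
          fun i => sum_dl _ i
        simp only [a1]
        rw [← Finset.mul_sum, ← sum_inner]
        have a2 : ∑ i, θ k i i = w k := rfl
        rw [a2, real_inner_self_eq_norm_sq]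
        ring
      simp only [this]
      rw [← Finset.sum_div, hww]
    have e3 : ∑ k, ∑ i, ∑ j, dl i j * (y k * inner ℝ (B i j) (w k)) = 0 := by
      refine Finset.sum_eq_zero fun k _ => ?_
      have a1 : ∀ i, ∑ j, dl i j * (y k * inner ℝ (B i j) (w k)) =
          1 / n * (y k * inner ℝ (B i i) (w k)) := fun i => sum_dl _ i
      simp only [a1]
      rw [← Finset.mul_sum, ← Finset.mul_sum, ← sum_inner, trB, inner_zero_left]
      ring
    have e4 : ∑ k, ∑ i, ∑ j, dl i j * (m i j * ‖w k‖ ^ 2) = 0 := by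
      refine Finset.sum_eq_zero fun k _ => ?_
      have a1 : ∀ i, ∑ j, dl i j * (m i j * ‖w k‖ ^ 2) = 1 / n * (m i i * ‖w k‖ ^ 2) :=
        fun i => sum_dl _ i
      simp only [a1]
      rw [← Finset.mul_sum, ← Finset.sum_mul, trm]
      ring
    rw [e1]
    simp only [Finset.sum_add_distrib, Finset.sum_sub_distrib]
    rw [e2, e3, e4, s3 (fun k i j => M i j * inner ℝ (θ k i j) (w k)),
      s3 (fun k i j => M i j * y k * inner ℝ (B i j) (w k)), ← hσw]
    simp only [hθs]
    rw [← hS2]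
    ring
  have hgs : ∑ k, y k * gsv m B τ θ k = S1 - yy / n - Helper35.PI.sq m * yy + σw := by
    have e1 : ∀ k, y k * gsv m B τ θ k = ∑ i, ∑ j, (M i j * τ k i j * y k
        - dl i j * (τ k i j * y k) - (m i j ^ 2 * y k ^ 2) - dl i j * (m i j * y k ^ 2)
        + M i j * y k * inner ℝ (B i j) (w k)) := by
      intro k
      unfold gsv Vt
      rw [iσ, ← Finset.sum_add_distrib, Finset.mul_sum]
      refine Finset.sum_congr rfl fun i _ => ?_
      rw [← Finset.sum_add_distrib, Finset.mul_sum]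
      refine Finset.sum_congr rfl fun j _ => ?_
      have : wv θ k = w k := rfl
      rw [this, hmM]
      have : yv τ k = y k := rfl
      rw [this]
      ring
    have e2 : ∑ k, ∑ i, ∑ j, dl i j * (τ k i j * y k) = yy / n := by
      have : ∀ k, ∑ i, ∑ j, dl i j * (τ k i j * y k) = y k ^ 2 / n := by
        intro k
        have a1 : ∀ i, ∑ j, dl i j * (τ k i j * y k) = 1 / n * (τ k i i * y k) :=
          fun i => sum_dl _ i
        simp only [a1]
        rw [← Finset.mul_sum, ← Finset.sum_mul]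
        have a2 : ∑ i, τ k i i = y k := rfl
        rw [a2]
        ring
      simp only [this]
      rw [← Finset.sum_div, hyy]
    have e3 : ∑ k, ∑ i, ∑ j, dl i j * (m i j * y k ^ 2) = 0 := by
      refine Finset.sum_eq_zero fun k _ => ?_
      have a1 : ∀ i, ∑ j, dl i j * (m i j * y k ^ 2) = 1 / n * (m i i * y k ^ 2) :=
        fun i => sum_dl _ i
      simp only [a1]
      rw [← Finset.mul_sum, ← Finset.sum_mul, trm]
      ring
    have e4 : ∑ k, ∑ i, ∑ j, m i j ^ 2 * y k ^ 2 = Helper35.PI.sq m * yy := by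
      rw [hyy, Finset.mul_sum]
      refine Finset.sum_congr rfl fun k _ => ?_
      unfold Helper35.PI.sq
      rw [Finset.sum_mul]
      exact Finset.sum_congr rfl fun i _ => (Finset.sum_mul _ _ _).symm
    simp only [e1, Finset.sum_add_distrib, Finset.sum_sub_distrib]
    rw [e2, e3, e4, s3 (fun k i j => M i j * τ k i j * y k),
      s3 (fun k i j => M i j * y k * inner ℝ (B i j) (w k)), ← hσw]
    simp only [hτs]
    rw [← hS1]
    ring
  have hwq : wq θ = ww := hww.symm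
  have hR : hsv Y m B τ θ = 2 * (-(S3 - 4 * (S1 + σw)) - 2 * (S2 - ww / n - σw)
      + 2 * Helper35.PI.sq m * ww + Y * (2 * Pq m B + (2 * C1 - 2 * C2)))
      + 4 * (S1 - yy / n - Helper35.PI.sq m * yy + σw) := by
    unfold hsv
    rw [hwq, ← hV, ← hU, ← hQ]
    have : ∑ k, yv τ k * gsv m B τ θ k = S1 - yy / n - Helper35.PI.sq m * yy + σw := hgs
    rw [this]
    ring
  rw [hR, hhZ, hhY, hgg, hgY2, hZZ, hrs]
  field_simp
  ring

end Helper63.PI
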