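import Pool.Agent.Helper35.PI.St3

/-!
Module NUM of project PI: numerical facts about the constants.
-/

namespace Helper63.PI

open Helper35.PI

theorem hNUM : StNUM := by
  intro n hn
  have hn' : (2 : ℝ) ≤ (n : ℝ) := by exact_mod_cast hn
  have hn0 : (0 : ℝ) < (n : ℝ) := by linarith
  have hk1 : kn n ≤ 1 := by
    unfold kn
    rw [div_le_one (by positivity)]
    nlinarith
  have h3 : 3 / ((n : ℝ) + 2) ≤ 1 := by
    rw [div_le_one (by linarith)]
    by_cases h : n = 2
    · subst h
      norm_num
    · linarith
  have hz : 0 < zn n ∧ zn n ≤ kn n ∧ 1 / (n : ℝ) + zn n ≤ 3 / ((n : ℝ) + 2) ∧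
      cOld n < 1 / (n : ℝ) + zn n := by
    unfold zn kn cOld
    split_ifs with h8 h12
    · refine ⟨?_, ?_, ?_, ?_⟩
      · apply div_pos <;> nlinarith
      · rw [div_le_div_iff₀ (by positivity) (by positivity)]
        have : 0 ≤ ((n : ℝ) - 1) * n * (n - 2) := by
          apply mul_nonneg (mul_nonneg _ _) <;> linarith
        nlinarith
      · have e : 1 / (n : ℝ) + ((n : ℝ) - 1) / (n * (n + 4)) = (2 * n + 3) / (n * (n + 4)) := by
          field_simp
          ring
        rw [e, div_le_div_iff₀ (by positivity) (by positivity)]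
        nlinarith
      · have e : 1 / (n : ℝ) + ((n : ℝ) - 1) / (n * (n + 4)) = (2 * n + 3) / (n * (n + 4)) := by
          field_simp
          ring
        rw [e]
        refine lt_of_le_of_lt (min_le_right _ _) ?_
        rw [div_lt_div_iff₀ (by positivity) (by positivity)]
        have : 0 < (n : ℝ) * (n * (n - 1)) := by
          apply mul_pos hn0
          apply mul_pos hn0
          linarith
        nlinarith
    · have h9 : (9 : ℝ) ≤ (n : ℝ) := by
        have : 9 ≤ n := by omega
        exact_mod_cast this
      have e : 1 / (n : ℝ) + 3 / (5 * (n : ℝ)) = 8 / (5 * n) := by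
        field_simp
        norm_num
      rw [e]
      refine ⟨by positivity, ?_, ?_, ?_⟩
      · rw [div_le_div_iff₀ (by positivity) (by positivity)]
        nlinarith
      · rw [div_le_div_iff₀ (by positivity) (by positivity)]
        nlinarith
      · refine lt_of_le_of_lt (min_le_left _ _) ?_
        rw [div_lt_div_iff₀ (by positivity) (by positivity)]
        nlinarith
    · have h13 : (13 : ℝ) ≤ (n : ℝ) := by
        have : 13 ≤ n := by omega
        exact_mod_cast this
      have e : 1 / (n : ℝ) + 2 / (3 * (n : ℝ)) = 5 / (3 * n) := by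
        field_simp
        norm_num
      rw [e]
      refine ⟨by positivity, ?_, ?_, ?_⟩
      · rw [div_le_div_iff₀ (by positivity) (by positivity)]
        nlinarith
      · rw [div_le_div_iff₀ (by positivity) (by positivity)]
        nlinarith
      · refine lt_of_le_of_lt (min_le_left _ _) ?_
        rw [div_lt_div_iff₀ (by positivity) (by positivity)]
        nlinarith
  obtain ⟨h1, h2, h4, h5⟩ := hz
  refine ⟨h1, h2, hk1, ?_, h4, h4.trans h3, h5⟩
  have : 0 < 1 / (n : ℝ) := by positivity
  linarith

end Helper63.PI
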